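import Pool.Agent.Run7.h630.QF.Iface
import Pool.Agent.Run7.h771.QC.Q8
import Pool.Agent.Run7.h771.QC.Q10
import Pool.Agent.Run7.h370.QC.Q6

/-!
# The derivative of the field along a vector field
-/

open MeasureTheory Matrix Filter Topology
open scoped Matrix.Norms.Frobenius ComplexConjugate

namespace Run7.h370.QF

open Run7.h4.YM Run7.h630.MQ Run7.h630.QC Run7.h630.QF Run7.h370.MQ Run7.h370.QC Run7.h771.QC

variable {N n L l : ℕ}

theorem Dr_zero' [NeZero N] (U : Link n L l → SU N) (x : Site n L l) :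
    (Dr ((0, 0) : Col N) U x).1 = 1 := by
  have h : Dr ((0, 0) : Col N) U x = 1 := by
    unfold Dr
    have h0 : ((0 : Fin N) : ℕ) = 0 := rfl
    simp only [h0, pow_zero, mul_one]
  rw [h]
  rfl

/-- a bound for a sum over colours, sites and planes -/
theorem sum4_le [NeZero N] [NeZero n] [NeZero L] [NeZero l]
    (g : Col N → Site n L l → Fin 4 → Fin 4 → ℝ) {B : ℝ} (hB : 0 ≤ B)
    (h : ∀ α ∈ Cz N, ∀ x i j, |g α x i j| ≤ B) :
    |∑ α ∈ Cz N, ∑ x : Site n L l, ∑ i : Fin 4, ∑ j ∈ Finset.Ioi i, g α x i j| ≤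
      16 * N ^ 2 * vol n L l * B := by
  have hv := (vol_ge (n := n) (L := L) (l := l)).1
  have h1 : ∀ α ∈ Cz N, |∑ x : Site n L l, ∑ i : Fin 4, ∑ j ∈ Finset.Ioi i, g α x i j| ≤
      vol n L l * (16 * B) := by
    intro α hα
    refine (Finset.abs_sum_le_sum_abs _ _).trans ?_
    refine (Finset.sum_le_card_nsmul _ _ (16 * B) fun x _ => ?_).trans ?_
    · refine (Finset.abs_sum_le_sum_abs _ _).trans ?_
      refine (Finset.sum_le_card_nsmul _ _ (4 * B) fun i _ => ?_).trans ?_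
      · refine (Finset.abs_sum_le_sum_abs _ _).trans ?_
        refine (Finset.sum_le_card_nsmul _ _ B fun j _ => h α hα x i j).trans ?_
        rw [nsmul_eq_mul]
        refine mul_le_mul_of_nonneg_right ?_ hB
        have : (Finset.Ioi i).card ≤ 4 := (Finset.card_le_univ _).trans (by simp)
        exact_mod_cast this
      · rw [Finset.card_univ, Fintype.card_fin, nsmul_eq_mul]
        push_cast
        linarith
    · rw [nsmul_eq_mul, card_site]
  refine (Finset.abs_sum_le_sum_abs _ _).trans ?_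
  refine (Finset.sum_le_card_nsmul _ _ _ h1).trans ?_
  rw [nsmul_eq_mul]
  have h2 : ((Cz N).card : ℝ) ≤ N ^ 2 := card_CN (N := N)
  calc ((Cz N).card : ℝ) * (vol n L l * (16 * B)) ≤ N ^ 2 * (vol n L l * (16 * B)) :=
        mul_le_mul_of_nonneg_right h2 (by positivity)
    _ = _ := by ring

theorem nb_norm (k : ℕ) (α : Col N) (j : Fin 4) (h : Site n L l → ℂ) {B : ℝ}
    (hb : ∀ x, ‖h x‖ ≤ B) (x : Site n L l) : ‖nb k α j h x‖ ≤ 2 * B := by
  unfold nb
  refine (norm_sub_le _ _).trans ?_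
  rw [norm_mul, rh_norm, one_mul]
  linarith [hb (x + dir j), hb x]

/-- the size of the pairing -/
theorem prg_le [NeZero N] [NeZero n] [NeZero L] [NeZero l] (k : ℕ)
    (f : Col N → Fin 4 → Fin 4 → Site n L l → ℂ) (b : Col N → Fin 4 → Site n L l → ℂ) {M B : ℝ}
    (hM : 0 ≤ M) (hB : 0 ≤ B) (hf : ∀ α i j x, ‖f α i j x‖ ≤ M)
    (hb : ∀ α ∈ Cz N, ∀ i x, ‖b α i x‖ ≤ B) :
    |prg k f b| ≤ 16 * N ^ 2 * vol n L l * (M * (4 * B)) := by
  unfold prg
  refine sum4_le (fun α x i j => (f α i j x * conj (nb k α i (b α j) x - nb k α j (b α i) x)).re)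
    (by positivity) fun α hα x i j => ?_
  refine (Complex.abs_re_le_norm _).trans ?_
  rw [norm_mul, RCLike.norm_conj]
  refine mul_le_mul (hf α i j x) ?_ (norm_nonneg _) hM
  refine (norm_sub_le _ _).trans ?_
  linarith [nb_norm k α i (b α j) (hb α hα j) x, nb_norm k α j (b α i) (hb α hα i) x]

/-- the pairing is real linear in the one-form -/
theorem prg_lin [NeZero N] [NeZero n] [NeZero L] [NeZero l] (k : ℕ)
    (f : Col N → Fin 4 → Fin 4 → Site n L l → ℂ) (b a c : Col N → Fin 4 → Site n L l → ℂ)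
    (r s : ℝ) :
    prg k f b + r * prg k f a - s * prg k f c =
      prg k f (fun α i x => b α i x + (r : ℂ) * a α i x - (s : ℂ) * c α i x) := by
  unfold prg
  simp only [Finset.mul_sum]
  rw [← Finset.sum_add_distrib, ← Finset.sum_sub_distrib]
  refine Finset.sum_congr rfl fun α _ => ?_
  rw [← Finset.sum_add_distrib, ← Finset.sum_sub_distrib]
  refine Finset.sum_congr rfl fun x _ => ?_
  rw [← Finset.sum_add_distrib, ← Finset.sum_sub_distrib]
  refine Finset.sum_congr rfl fun i _ => ?_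
  rw [← Finset.sum_add_distrib, ← Finset.sum_sub_distrib]
  refine Finset.sum_congr rfl fun j _ => ?_
  have e : f α i j x * conj (nb k α i (fun x => b α j x + (r : ℂ) * a α j x - (s : ℂ) * c α j x) x -
      nb k α j (fun x => b α i x + (r : ℂ) * a α i x - (s : ℂ) * c α i x) x) =
      f α i j x * conj (nb k α i (b α j) x - nb k α j (b α i) x) +
      (r : ℂ) * (f α i j x * conj (nb k α i (a α j) x - nb k α j (a α i) x)) -
      (s : ℂ) * (f α i j x * conj (nb k α i (c α j) x - nb k α j (c α i) x)) := by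
    unfold nb
    simp only [map_sub, map_add, map_mul, Complex.conj_ofReal]
    ring
  rw [e, Complex.sub_re, Complex.add_re, Complex.re_ofReal_mul, Complex.re_ofReal_mul]

/-- the projection in the frame of the dressings -/
theorem tr_pr_sum [NeZero N] (D : Mt N) (b : Col N → ℂ) (E : Col N → Mt N) :
    conj (trace (D * pr (∑ α' ∈ Cz N, b α' • E α'))) =
      1 / 2 * (∑ α' ∈ Cz N, conj (b α' * trace (D * E α'))) -
      1 / 2 * (∑ α' ∈ Cz N, b α' * conj (trace (D * (E α')ᴴ))) -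
      conj (sc (∑ α' ∈ Cz N, b α' • E α') * trace D) := by
  obtain ⟨A, hA⟩ : ∃ A : Mt N, A = ∑ α' ∈ Cz N, b α' • E α' := ⟨_, rfl⟩
  rw [← hA]
  have h1 : trace (D * pr A) = 1 / 2 * trace (D * A) - 1 / 2 * trace (D * Aᴴ) - sc A * trace D := by
    rw [pr_eq, mul_sub, mul_smul_comm, mul_smul_comm, mul_one, mul_sub, trace_sub, trace_smul,
      trace_smul, trace_sub, smul_eq_mul, smul_eq_mul]
    ring
  have h2 : trace (D * A) = ∑ α' ∈ Cz N, b α' * trace (D * E α') := by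
    rw [hA, Matrix.mul_sum, trace_sum]
    refine Finset.sum_congr rfl fun α' _ => ?_
    rw [Matrix.mul_smul, trace_smul, smul_eq_mul]
  have h3 : trace (D * Aᴴ) = ∑ α' ∈ Cz N, conj (b α') * trace (D * (E α')ᴴ) := by
    rw [hA, conjTranspose_sum, Matrix.mul_sum, trace_sum]
    refine Finset.sum_congr rfl fun α' _ => ?_
    rw [conjTranspose_smul, Matrix.mul_smul, trace_smul, smul_eq_mul]
    rfl
  rw [h1, h2, h3]
  have hc : conj (1 / 2 : ℂ) = 1 / 2 := by
    have : (1 / 2 : ℂ) = ((1 / 2 : ℝ) : ℂ) := by push_cast; rfl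
    rw [this, Complex.conj_ofReal]
  rw [map_sub, map_sub, map_mul (starRingEnd ℂ) (1 / 2 : ℂ), map_mul (starRingEnd ℂ) (1 / 2 : ℂ),
    hc, map_sum, map_sum]
  congr 3
  refine Finset.sum_congr rfl fun α' _ => ?_
  rw [map_mul, Complex.conj_conj]

/-- the coefficients of a vector field -/
theorem hh_Ka [NeZero N] [NeZero n] [NeZero L] [NeZero l] (k : ℕ) (q : ZMod n × ZMod L → ZMod N)
    (U : Link n L l → SU N) (a : Col N → Fin 4 → Site n L l → ℂ) {M' B : ℝ} (hM' : 0 ≤ M')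
    (hB : 0 ≤ B) (ha : ∀ α j x, ‖a α j x‖ ≤ M')
    (hQ : ∀ (α α' : Col N) (x : Site n L l), α ≠ α' →
      ‖trace ((Dr α U x).1 * (Dr α' U x).1ᴴ)‖ ≤ B)
    (α : Col N) (hα : α ∈ Cz N) (i : Fin 4) (x : Site n L l) :
    ‖hh α U (Ka a U) i x + ((N / 2 : ℝ) : ℂ) * a α i x - ((1 / 2 : ℝ) : ℂ) * tw a U α i x‖ ≤
      2 * N ^ 3 * (M' * B) := by
  have hN : (0 : ℝ) < N := by exact_mod_cast Nat.pos_of_neZero N
  have hN1 : (1 : ℝ) ≤ N := by exact_mod_cast Nat.pos_of_neZero N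
  have hα0 : α ≠ (0, 0) := Finset.ne_of_mem_erase hα
  have h1 := tr_pr_sum (Dr α U x).1 (fun α' => a α' i x) (fun α' => (Dr α' U x).1)
  have h2 : hh α U (Ka a U) i x = conj (trace ((Dr α U x).1 *
      pr (∑ α' ∈ Cz N, a α' i x • (Dr α' U x).1))) := rfl
  have h3 : ∑ α' ∈ Cz N, a α' i x * conj (trace ((Dr α U x).1 * ((Dr α' U x).1)ᴴ)) =
      (N : ℂ) * a α i x + ∑ α' ∈ (Cz N).erase α,
        a α' i x * conj (trace ((Dr α U x).1 * ((Dr α' U x).1)ᴴ)) := by
    rw [← Finset.add_sum_erase _ _ hα]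
    congr 1
    rw [Run7.h370.MQ.mul_star_self', trace_one, Fintype.card_fin, map_natCast, mul_comm]
  obtain ⟨A, hA⟩ : ∃ A : Mt N, A = ∑ α' ∈ Cz N, a α' i x • (Dr α' U x).1 := ⟨_, rfl⟩
  have h4 : hh α U (Ka a U) i x + ((N / 2 : ℝ) : ℂ) * a α i x -
      ((1 / 2 : ℝ) : ℂ) * tw a U α i x =
      -(1 / 2 * ∑ α' ∈ (Cz N).erase α,
        a α' i x * conj (trace ((Dr α U x).1 * ((Dr α' U x).1)ᴴ))) -
      conj (sc A * trace (Dr α U x).1) := by
    rw [h2, h1, h3, ← hA]
    unfold tw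
    push_cast
    ring
  rw [h4]
  refine (norm_sub_le _ _).trans ?_
  rw [norm_neg, RCLike.norm_conj, norm_mul, norm_mul]
  have c1 : ‖∑ α' ∈ (Cz N).erase α,
      a α' i x * conj (trace ((Dr α U x).1 * ((Dr α' U x).1)ᴴ))‖ ≤ N ^ 2 * (M' * B) := by
    refine (norm_sum_le _ _).trans ?_
    refine (Finset.sum_le_card_nsmul _ _ (M' * B) fun α' hα' => ?_).trans ?_
    · rw [norm_mul, RCLike.norm_conj]
      exact mul_le_mul (ha α' i x) (hQ α α' x (Finset.ne_of_mem_erase hα').symm) (norm_nonneg _) hM'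
    · rw [nsmul_eq_mul]
      have h5 : (((Cz N).erase α).card : ℝ) ≤ N ^ 2 := by
        have : (((Cz N).erase α).card : ℝ) ≤ ((Cz N).card : ℝ) := by
          exact_mod_cast Finset.card_le_card (Finset.erase_subset _ _)
        exact this.trans (card_CN (N := N))
      exact mul_le_mul_of_nonneg_right h5 (by positivity)
  have c2 : ‖sc A‖ ≤ N ^ 3 * M' := by
    have h5 : ‖sc A‖ ≤ ‖A‖ := by
      refine (norm_sc_le A).trans ?_
      rw [div_le_iff₀ hN, mul_comm]
      exact norm_tr_le A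
    refine h5.trans ?_
    rw [hA]
    refine (norm_sum_le _ _).trans ?_
    refine (Finset.sum_le_card_nsmul _ _ (M' * N) fun α' _ => ?_).trans ?_
    · rw [norm_smul]
      exact mul_le_mul (ha α' i x) (norm_SU_le _) (norm_nonneg _) hM'
    · rw [nsmul_eq_mul]
      have h6 : ((Cz N).card : ℝ) ≤ N ^ 2 := card_CN (N := N)
      calc ((Cz N).card : ℝ) * (M' * N) ≤ N ^ 2 * (M' * N) :=
            mul_le_mul_of_nonneg_right h6 (by positivity)
        _ = _ := by ring
  have c3 : ‖trace (Dr α U x).1‖ ≤ B := by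
    have h5 := hQ α (0, 0) x hα0
    rw [Dr_zero', conjTranspose_one, mul_one] at h5
    exact h5
  have c4 : ‖(1 / 2 : ℂ)‖ = 1 / 2 := by simp
  rw [c4]
  calc 1 / 2 * ‖∑ α' ∈ (Cz N).erase α,
      a α' i x * conj (trace ((Dr α U x).1 * ((Dr α' U x).1)ᴴ))‖ + ‖sc A‖ * ‖trace (Dr α U x).1‖
      ≤ 1 / 2 * (N ^ 2 * (M' * B)) + N ^ 3 * M' * B := by
        refine add_le_add (mul_le_mul_of_nonneg_left c1 (by norm_num)) ?_
        exact mul_le_mul c2 c3 (norm_nonneg _) (by positivity)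
    _ ≤ 2 * N ^ 3 * (M' * B) := by
        have h6 : (N : ℝ) ^ 2 ≤ N ^ 3 := pow_le_pow_right₀ hN1 (by norm_num)
        have h7 : 0 ≤ M' * B := by positivity
        nlinarith

/-- the size of the vector field -/
theorem Ka_norm [NeZero N] (U : Link n L l → SU N) (a : Col N → Fin 4 → Site n L l → ℂ) {M' : ℝ}
    (hM' : 0 ≤ M') (ha : ∀ α j x, ‖a α j x‖ ≤ M') (e : Link n L l) :
    ‖Ka a U e‖ ≤ 2 * N ^ 4 * M' := by
  unfold Ka
  refine (norm_pr_le _).trans ?_
  have h1 : ‖∑ α ∈ (Finset.univ : Finset (Col N)).erase (0, 0), a α e.1 e.2 • (Dr α U e.2).1‖ ≤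
      N ^ 2 * (M' * N) := by
    refine (norm_sum_le _ _).trans ?_
    refine (Finset.sum_le_card_nsmul _ _ (M' * N) fun α' _ => ?_).trans ?_
    · rw [norm_smul]
      exact mul_le_mul (ha α' _ _) (norm_SU_le _) (norm_nonneg _) hM'
    · rw [nsmul_eq_mul]
      exact mul_le_mul_of_nonneg_right (card_CN (N := N)) (by positivity)
  calc 2 * (N : ℝ) * _ ≤ 2 * N * (N ^ 2 * (M' * N)) :=
        mul_le_mul_of_nonneg_left h1 (by positivity)
    _ = _ := by ring

theorem t_R4 (hQ1 : S_Q1) (hQ2 : S_Q2) : S_R4 := by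
  intro N _
  obtain ⟨C2, p2, hC2, h2⟩ := hQ2 N
  have hN : (0 : ℝ) < N := by exact_mod_cast Nat.pos_of_neZero N
  refine ⟨320 * N ^ 8 + 128 * N ^ 5 * C2, p2 + 2, by positivity, ?_⟩
  intro n L l k _ _ _ hk q U f a M M' hf ha d hd
  have hM : 0 ≤ M := (norm_nonneg _).trans (hf (0, 0) 0 0 0)
  have hM' : 0 ≤ M' := (norm_nonneg _).trans (ha (0, 0) 0 0)
  have hs := ss_nonneg k q U
  have hv := vol_ge (n := n) (L := L) (l := l)
  have hv0 : (0 : ℝ) ≤ vol n L l := by linarith [hv.1]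
  have hl0 : (0 : ℝ) ≤ l := Nat.cast_nonneg _
  have hK : ∀ e, SkT (Ka a U e) := fun e => skT_pr _
  have hKn : ∀ e, ‖Ka a U e‖ ≤ 2 * N ^ 4 * M' := Ka_norm U a hM' ha
  choose D hD bD using fun α i j x => hasDerivAt_ph2 hQ1 k q U hK hKn (by positivity) α i j x
  -- the derivative
  have hder : HasDerivAt (fun t : ℝ => Ph k q f (fg (Ka a U) t U))
      (∑ α ∈ Cz N, ∑ x : Site n L l, ∑ i : Fin 4, ∑ j ∈ Finset.Ioi i,
        (f α i j x * D α i j x).re) 0 := by
    unfold Ph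
    refine HasDerivAt.fun_sum fun α _ => HasDerivAt.fun_sum fun x _ => HasDerivAt.fun_sum fun i _ =>
      HasDerivAt.fun_sum fun j _ => ?_
    exact (Complex.reCLM.hasFDerivAt.comp_hasDerivAt (0 : ℝ) ((hD α i j x).const_mul (f α i j x)))
  have hdd := hd.unique hder
  -- the first error
  have e1 : |d - prg k f (fun α i x => hh α U (Ka a U) i x)| ≤
      16 * N ^ 2 * vol n L l * (M * (10 * N ^ 2 * l * (2 * N ^ 4 * M') * ss k q U)) := by
    rw [hdd]
    unfold prg
    rw [← Finset.sum_sub_distrib]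
    simp only [← Finset.sum_sub_distrib]
    refine sum4_le (fun α x i j => (f α i j x * D α i j x).re -
      (f α i j x * conj (nb k α i (hh α U (Ka a U) j) x - nb k α j (hh α U (Ka a U) i) x)).re)
      (by positivity) fun α _ x i j => ?_
    rw [← Complex.sub_re, ← mul_sub]
    refine (Complex.abs_re_le_norm _).trans ?_
    rw [norm_mul]
    refine mul_le_mul (hf α i j x) ?_ (norm_nonneg _) hM
    have h5 := bD α i j x
    rw [← RCLike.norm_conj] at h5
    rw [map_sub, Complex.conj_conj] at h5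
    exact h5
  -- the second error
  have e2 : |prg k f (fun α i x => hh α U (Ka a U) i x) + (N / 2 : ℝ) * prg k f a -
      (1 / 2 : ℝ) * prg k f (tw a U)| ≤
      16 * N ^ 2 * vol n L l * (M * (4 * (2 * N ^ 3 * (M' * (C2 * l ^ p2 * ss k q U))))) := by
    rw [prg_lin]
    refine prg_le k f _ hM (by positivity) hf fun α hα i x => ?_
    exact hh_Ka k q U a hM' (by positivity) ha (fun α α' x h => h2 n L l k hk q U α α' x h) α hα i x
  have e3 : d + (N / 2 : ℝ) * prg k f a - 1 / 2 * prg k f (tw a U) =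
      (d - prg k f (fun α i x => hh α U (Ka a U) i x)) +
      (prg k f (fun α i x => hh α U (Ka a U) i x) + (N / 2 : ℝ) * prg k f a -
      (1 / 2 : ℝ) * prg k f (tw a U)) := by ring
  rw [e3]
  refine (abs_add_le _ _).trans ((add_le_add e1 e2).trans ?_)
  have hV : 1 ≤ vol n L l := hv.1
  have b1 : vol n L l * (l : ℝ) ≤ vol n L l ^ (p2 + 2) := by
    calc vol n L l * (l : ℝ) ≤ vol n L l * vol n L l := mul_le_mul_of_nonneg_left hv.2 hv0
      _ = vol n L l ^ 2 := by ring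
      _ ≤ _ := pow_le_pow_right₀ hV (by omega)
  have b2 : vol n L l * (l : ℝ) ^ p2 ≤ vol n L l ^ (p2 + 2) := by
    calc vol n L l * (l : ℝ) ^ p2 ≤ vol n L l * vol n L l ^ p2 :=
          mul_le_mul_of_nonneg_left (pow_le_pow_left₀ hl0 hv.2 p2) hv0
      _ = vol n L l ^ (p2 + 1) := by ring
      _ ≤ _ := pow_le_pow_right₀ hV (by omega)
  have hMM : 0 ≤ M * M' * ss k q U := by positivity
  calc 16 * (N : ℝ) ^ 2 * vol n L l * (M * (10 * N ^ 2 * l * (2 * N ^ 4 * M') * ss k q U)) +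
        16 * N ^ 2 * vol n L l * (M * (4 * (2 * N ^ 3 * (M' * (C2 * l ^ p2 * ss k q U)))))
      = 320 * N ^ 8 * (vol n L l * l) * (M * M' * ss k q U) +
        128 * N ^ 5 * C2 * (vol n L l * (l : ℝ) ^ p2) * (M * M' * ss k q U) := by ring
    _ ≤ 320 * N ^ 8 * vol n L l ^ (p2 + 2) * (M * M' * ss k q U) +
        128 * N ^ 5 * C2 * vol n L l ^ (p2 + 2) * (M * M' * ss k q U) := by gcongr
    _ = _ := by ring

end Run7.h370.QF
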