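import Pool.Agent.Run7.h630.QF.Iface
import Pool.Agent.Run7.h771.QC.Q10
import Pool.Agent.Run7.h370.QC.Q6
import Pool.Agent.Run7.h4.VS.Torus

/-!
# The symmetry of the centre, and windows
-/

open MeasureTheory Matrix Filter Topology
open scoped Matrix.Norms.Frobenius ComplexConjugate

namespace Run7.h370.QF

open Run7.h630.QC Run7.h630.QF Run7.h370.QC
open Run7.h4.YM (SU Link Site dir plaq cz cz_val om_prim)
open Run7.h4.VS (zc zc_add zc_neg zc_comm cenT mp_cenT)

variable {N n L l : ℕ}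

/-- the component of a centre field in the direction `i` -/
def ee (c : ZMod n × ZMod L → Fin 2 → ZMod N) (i : Fin 4) (x : Site n L l) : ZMod N :=
  if i = 0 then c (x.1, x.2.1) 0 else if i = 1 then c (x.1, x.2.1) 1 else 0

/-- the coboundary -/
def dcc (c : ZMod n × ZMod L → Fin 2 → ZMod N) (u : ZMod n × ZMod L) : ZMod N :=
  c u 0 + c (u + (1, 0)) 1 - c (u + (0, 1)) 0 - c u 1

theorem plaq_cenT [NeZero N] (hζ : IsPrimitiveRoot (Run7.h4.YM.om N 1) N)
    (c : ZMod n × ZMod L → Fin 2 → ZMod N) (U : Link n L l → SU N) (x : Site n L l)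
    (i j : Fin 4) :
    plaq (cenT hζ c U) x i j =
      zc hζ (ee c i x + ee c j (x + dir i) + -ee c i (x + dir j) + -ee c j x) * plaq U x i j := by
  have hc : ∀ (z : ZMod N) (g : SU N), Commute g (zc hζ z) := fun z g => (zc_comm hζ z g).symm
  have hinv : ∀ (z : ZMod N) (g : SU N), (zc hζ z * g)⁻¹ = zc hζ (-z) * g⁻¹ := by
    intro z g
    rw [_root_.mul_inv_rev, zc_neg, ← zc_neg]
    exact hc _ _
  have hmul : ∀ (z w : ZMod N) (g h : SU N),
      zc hζ z * g * (zc hζ w * h) = zc hζ (z + w) * (g * h) := by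
    intro z w g h
    rw [Commute.mul_mul_mul_comm (hc w g), ← zc_add]
  have e : ∀ (i : Fin 4) (x : Site n L l), cenT hζ c U (i, x) = zc hζ (ee c i x) * U (i, x) :=
    fun i x => rfl
  unfold plaq
  rw [e, e, e, e, hinv, hinv, hmul, hmul, hmul]

theorem zc_smul [NeZero N] (hζ : IsPrimitiveRoot (Run7.h4.YM.om N 1) N) (z : ZMod N) (g : SU N) :
    (zc hζ z * g).1 = (Run7.h630.MQ.om N 1 ^ z.val) • g.1 := by
  have h : (zc hζ z * g).1 = (zc hζ z).1 * g.1 := rfl
  rw [h]
  unfold zc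
  rw [cz_val, smul_mul_assoc, one_mul]
  rfl

theorem om_val [NeZero N] (a b : ZMod N) : Run7.h630.MQ.om N 1 ^ a.val * Run7.h630.MQ.om N 1 ^ b.val =
    Run7.h630.MQ.om N 1 ^ (a + b).val := by
  rw [← pow_add, ZMod.val_add]
  exact pow_eq_pow_mod _ (om_pow 1)

theorem twist_eq [NeZero N] (k : ℕ) (q : ZMod n × ZMod L → ZMod N)
    (c : ZMod n × ZMod L → Fin 2 → ZMod N) (x : Site n L l) (i j : Fin 4) (hij : i < j) :
    zz N k q x i j * Run7.h630.MQ.om N 1 ^
        (ee c i x + ee c j (x + dir i) + -ee c i (x + dir j) + -ee c j x).val =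
      zz N k (fun u => q u + dcc c u) x i j := by
  obtain ⟨x1, x2, x3, x4⟩ := x
  by_cases h01 : i = 0 ∧ j = 1
  · obtain ⟨rfl, rfl⟩ := h01
    have e1 : ee c 0 (x1, x2, x3, x4) + ee c 1 ((x1, x2, x3, x4) + dir 0) +
        -ee c 0 ((x1, x2, x3, x4) + dir 1) + -ee c 1 (x1, x2, x3, x4) = dcc c (x1, x2) := by
      simp [ee, dcc, dir]
      ring
    rw [e1]
    unfold zz z0
    rw [if_pos (by decide), if_pos (by decide), if_pos (by simp), if_pos (by simp)]
    exact om_val _ _
  · have e1 : ee c i (x1, x2, x3, x4) + ee c j ((x1, x2, x3, x4) + dir i) +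
        -ee c i ((x1, x2, x3, x4) + dir j) + -ee c j (x1, x2, x3, x4) = 0 := by
      fin_cases i <;> fin_cases j <;> simp_all [ee, dir]
    rw [e1, ZMod.val_zero, pow_zero, mul_one]
    unfold zz z0
    rw [if_pos hij, if_pos hij, if_neg h01, if_neg h01]

theorem Sq_cenT [NeZero N] [NeZero n] [NeZero L] [NeZero l]
    (hζ : IsPrimitiveRoot (Run7.h4.YM.om N 1) N) (k : ℕ) (q : ZMod n × ZMod L → ZMod N)
    (c : ZMod n × ZMod L → Fin 2 → ZMod N) (U : Link n L l → SU N) :
    Sq k q (cenT hζ c U) = Sq k (fun u => q u + dcc c u) U := by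
  unfold Sq
  refine Finset.sum_congr rfl fun x _ => Finset.sum_congr rfl fun i _ =>
    Finset.sum_congr rfl fun j hj => ?_
  rw [plaq_cenT hζ, zc_smul hζ, trace_smul, smul_eq_mul, ← mul_assoc,
    twist_eq k q c x i j (Finset.mem_Ioi.1 hj)]

/-- the integral depends on the class of `q` only -/
theorem int_shift [NeZero N] [NeZero n] [NeZero L] [NeZero l] [MeasurableSpace (SU N)]
    [BorelSpace (SU N)] (μ : Measure (SU N)) [IsProbabilityMeasure μ] [μ.IsHaarMeasure] (k : ℕ)
    {φ : ℝ → ℝ} (hφ : Continuous φ) (q s : ZMod n × ZMod L → ZMod N) (hs : ∑ u, s u = 0) :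
    ∫ U, φ (Sq k (fun u => q u + s u) U) ∂(Measure.pi fun _ : Link n L l => μ) =
      ∫ U, φ (Sq k q U) ∂(Measure.pi fun _ : Link n L l => μ) := by
  have hζ : IsPrimitiveRoot (Run7.h4.YM.om N 1) N := om_prim (Nat.coprime_one_left N)
  obtain ⟨c, hc⟩ := Pool.Agent.Run7.h630.R2.dc_range s hs
  have hs' : s = dcc c := funext fun u => (hc u).symm
  rw [hs']
  have hm := mp_cenT (n := n) (L := L) (l := l) hζ μ c
  have hcont : Continuous fun U : Link n L l → SU N => φ (Sq k q U) :=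
    hφ.comp (Run7.h771.QC.continuous_Sq k q)
  have h1 := integral_map (μ := Measure.pi fun _ : Link n L l => μ) (φ := cenT hζ c)
    hm.measurable.aemeasurable (f := fun U : Link n L l → SU N => φ (Sq k q U))
    hcont.measurable.aestronglyMeasurable
  rw [hm.map_eq] at h1
  rw [h1]
  simp only [Sq_cenT]

/-- the points of the window -/
def pt (n L R : ℕ) (a : Fin (2 * R + 1) × Fin (2 * R + 1)) : ZMod n × ZMod L :=
  ((((a.1 : ℕ) : ℤ) - R : ℤ), (((a.2 : ℕ) : ℤ) - R : ℤ))

/-- a point outside of the window -/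
def po' (n L R : ℕ) : ZMod n × ZMod L := (((R : ℤ) + 1 : ℤ), ((R : ℤ) + 1 : ℤ))

theorem cast_inj' {n : ℕ} {a b : ℤ} (h : (a : ZMod n) = b) (h1 : |a - b| < n) : a = b := by
  rw [ZMod.intCast_eq_intCast_iff_dvd_sub] at h
  have h2 : b - a = 0 := by
    refine Int.eq_zero_of_abs_lt_dvd h ?_
    rw [abs_sub_comm]
    exact h1
  linarith

theorem pt_inj {R : ℕ} (hn : 2 * R + 2 ≤ n) (hL : 2 * R + 2 ≤ L) :
    Function.Injective (pt n L R) := by
  intro a b h
  have h1 := congrArg Prod.fst h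
  have h2 := congrArg Prod.snd h
  have a1 := a.1.2
  have a2 := a.2.2
  have b1 := b.1.2
  have b2 := b.2.2
  have c1 := cast_inj' h1 (by rw [abs_lt]; constructor <;> omega)
  have c2 := cast_inj' h2 (by rw [abs_lt]; constructor <;> omega)
  refine Prod.ext (Fin.ext ?_) (Fin.ext ?_) <;> omega

theorem pt_ne {R : ℕ} (hn : 2 * R + 2 ≤ n) (a : Fin (2 * R + 1) × Fin (2 * R + 1)) :
    pt n L R a ≠ po' n L R := by
  intro h
  have h1 := congrArg Prod.fst h
  have a1 := a.1.2
  have c1 := cast_inj' h1 (by rw [abs_lt]; constructor <;> omega)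
  omega

theorem Wn_iff {R : ℕ} (q : ZMod n × ZMod L → ZMod N) :
    Wn n L N R q ↔ ∀ a, q (pt n L R a) = 0 := by
  constructor
  · intro h a
    have a1 := a.1.2
    have a2 := a.2.2
    exact h ((((a.1 : ℕ) : ℤ) - R : ℤ), (((a.2 : ℕ) : ℤ) - R : ℤ))
      (by rw [abs_le]; constructor <;> simp only <;> omega)
      (by rw [abs_le]; constructor <;> simp only <;> omega)
  · intro h x h1 h2
    rw [abs_le] at h1 h2
    have h3 := h (⟨(x.1 + R).toNat, by omega⟩, ⟨(x.2 + R).toNat, by omega⟩)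
    unfold pt at h3
    simp only at h3
    have e1 : ((x.1 + R).toNat : ℤ) - R = x.1 := by omega
    have e2 : ((x.2 + R).toNat : ℤ) - R = x.2 := by omega
    rw [e1, e2] at h3
    exact h3

/-- the correction with prescribed values in the window -/
def cw (n L R : ℕ) [NeZero n] [NeZero L] (w : Fin (2 * R + 1) × Fin (2 * R + 1) → ZMod N) :
    ZMod n × ZMod L → ZMod N :=
  ∑ a, (Pi.single (pt n L R a) (w a) - Pi.single (po' n L R) (w a))

theorem cw_sum [NeZero n] [NeZero L] (R : ℕ)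
    (w : Fin (2 * R + 1) × Fin (2 * R + 1) → ZMod N) : ∑ u, cw n L R w u = 0 := by
  unfold cw
  simp only [Finset.sum_apply, Pi.sub_apply]
  rw [Finset.sum_comm]
  refine Finset.sum_eq_zero fun a _ => ?_
  rw [Finset.sum_sub_distrib]
  have h : ∀ (p : ZMod n × ZMod L) (z : ZMod N),
      ∑ u, (Pi.single p z : ZMod n × ZMod L → ZMod N) u = z := by
    intro p z
    exact Finset.sum_pi_single' p z Finset.univ |>.trans (by simp)
  rw [h, h, sub_self]

theorem cw_pt [NeZero n] [NeZero L] {R : ℕ} (hn : 2 * R + 2 ≤ n) (hL : 2 * R + 2 ≤ L)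
    (w : Fin (2 * R + 1) × Fin (2 * R + 1) → ZMod N) (a : Fin (2 * R + 1) × Fin (2 * R + 1)) :
    cw n L R w (pt n L R a) = w a := by
  unfold cw
  rw [Finset.sum_apply, Finset.sum_eq_single a]
  · rw [Pi.sub_apply, Pi.single_eq_same, Pi.single_eq_of_ne (pt_ne hn a), sub_zero]
  · intro b _ hb
    rw [Pi.sub_apply, Pi.single_eq_of_ne (pt_ne hn a), sub_zero, Pi.single_eq_of_ne]
    exact fun h => hb (pt_inj hn hL h).symm
  · intro h
    exact absurd (Finset.mem_univ a) h

open Classical in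
theorem t_R6 : S_R6 := by
  intro N n L l k _ _ _ _ _ _ μ _ _ R hn hL φ hφ
  obtain ⟨I, hI⟩ : ∃ I : (ZMod n × ZMod L → ZMod N) → ℝ, I = fun q =>
    ∫ U, φ (Sq k q U) ∂(Measure.pi fun _ : Link n L l => μ) := ⟨_, rfl⟩
  have hsh : ∀ (q s : ZMod n × ZMod L → ZMod N), ∑ u, s u = 0 → I (q + s) = I q := by
    intro q s hs
    rw [hI]
    exact int_shift μ k hφ q s hs
  have hgoal : (N : ℝ) ^ ((2 * R + 1) ^ 2) * Sw N n L R I = ∑ q, I q := by
    rw [← Finset.sum_fiberwise Finset.univ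
      (fun (q : ZMod n × ZMod L → ZMod N) (a : Fin (2 * R + 1) × Fin (2 * R + 1)) =>
        q (pt n L R a)) I]
    have h1 : ∀ w : Fin (2 * R + 1) × Fin (2 * R + 1) → ZMod N,
        ∑ q ∈ (Finset.univ : Finset (ZMod n × ZMod L → ZMod N)).filter
          (fun q => (fun a => q (pt n L R a)) = w), I q = Sw N n L R I := by
      intro w
      unfold Sw
      refine Finset.sum_nbij' (fun q => q - cw n L R w) (fun q => q + cw n L R w) ?_ ?_ ?_ ?_ ?_
      · intro q hq
        rw [Finset.mem_filter] at hq ⊢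
        refine ⟨Finset.mem_univ _, (Wn_iff _).2 fun a => ?_⟩
        rw [Pi.sub_apply, cw_pt hn hL, ← hq.2, sub_self]
      · intro q hq
        rw [Finset.mem_filter] at hq ⊢
        refine ⟨Finset.mem_univ _, funext fun a => ?_⟩
        rw [Pi.add_apply, cw_pt hn hL, (Wn_iff _).1 hq.2 a, zero_add]
      · intro q _
        exact sub_add_cancel _ _
      · intro q _
        exact add_sub_cancel_right _ _
      · intro q _
        have h2 := hsh (q - cw n L R w) (cw n L R w) (cw_sum R w)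
        rw [sub_add_cancel] at h2
        exact h2
    rw [Finset.sum_congr rfl fun w _ => h1 w, Finset.sum_const, nsmul_eq_mul, Finset.card_univ,
      Fintype.card_fun, ZMod.card, Fintype.card_prod, Fintype.card_fin]
    push_cast
    rw [← sq]
  rw [hI] at hgoal
  exact hgoal

end Run7.h370.QF
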